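import Pool.Agent.Helper95.CF.Stmts
import Pool.Agent.Helper89.LN.EB

/-!
# Row EBN: the trial atoms have negative energy
-/

set_option autoImplicit false

namespace Pool.Agent.Helper89.CF

open MeasureTheory Filter
open Pool.Agent.Helper95.PW Pool.Agent.Helper95.LN Pool.Agent.Helper95.CF Pool.Agent.Helper89.LN

lemma kap_pos (h2 : ST_ORB) : 0 < kap := by
  have h : 0 ≤ kap := by
    unfold kap
    refine integral_nonneg fun y => ?_
    have hcb : 0 ≤ cb := intervalIntegral.integral_nonneg (by norm_num) fun _ _ => sq_nonneg _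
    unfold et
    have := nr_nonneg y
    positivity
  exact lt_of_le_of_ne h (kap_ne h2).symm

theorem EBN (h1 : ST_TRE) (h2 : ST_ORB) (h3 : ST_PT1) (h4 : ST_PT2) (h5 : ST_PT3) : ST_EBN := by
  have hkp := kap_pos h2
  have hkap := hkp.ne'
  obtain ⟨C0, hC0, ho⟩ := h2
  intro z hz
  set N : ℕ := ⌊z⌋₊ with hN
  set d : ℝ := 4 * C0 * 4 ^ N with hdd
  have hd : 0 < d := by positivity
  refine ⟨d, 1 / d, hd, by positivity, ?_⟩
  intro n M X Z E hX hn hZ hE
  subst hn
  have hZN : ∀ j, Z j ≤ N := fun j => Nat.le_floor (hZ j)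
  have hmN : ∀ k, mn Z k ≤ N := fun k => ((mn_lt Z k).trans_le (hZN _)).le
  obtain ⟨ψ, hs, ha, hp, hk, hpr, hon⟩ := h1 (∑ j, Z j) (fk d X Z)
    (fun l => (ho _ (sc_pos d hd Z l)).1.comp (contDiff_id.sub contDiff_const))
    (fun l => (ho _ (sc_pos d hd Z l)).2.1.comp_homeomorph (Homeomorph.subRight (X (Jn Z l))))
    (fun i j y hi hj => fk_disj d hd X Z C0 ho hX i j y hi hj)
    (fun l => by
      have := (ho _ (sc_pos d hd Z l)).2.2.2.2.1
      rw [← integral_sub_right_eq_self _ (X (Jn Z l))] at this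
      exact this)
  have hE1 := hE ψ hs ha
  unfold QM at hE1
  rw [hk, hpr, hon M X (fun j => (Z j : ℝ))] at hE1
  rw [← mul_add, ← mul_sub, mul_comm E] at hE1
  have hE2 := le_of_mul_le_mul_left hE1 hp
  -- squares of the orbitals
  have hf : ∀ k y, fk d X Z k y ^ 2 = et (sc d Z k) (y - X (Jn Z k)) / kap := fun k y =>
    (ho _ (sc_pos d hd Z k)).2.2.2.1 _
  -- attraction of the own nucleus
  set q : Fin (∑ j, Z j) → ℝ := fun k =>
    (∫ x, et (sc d Z k) (x - X (Jn Z k)) / nr (x - X (Jn Z k))) / kap with hq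
  have hq1 : ∀ k, 1 / sc d Z k ≤ q k := by
    intro k
    have h6 := (h5 (sc d Z k) 1 (X (Jn Z k)) (sc_pos d hd Z k) one_pos).1
    simp only [hq]
    rw [le_div_iff₀ hkp]
    calc 1 / sc d Z k * kap = kap / sc d Z k := by ring
      _ ≤ _ := h6
  have hq0 : ∀ k, 0 ≤ q k := fun k => (one_div_pos.2 (sc_pos d hd Z k)).le.trans (hq1 k)
  -- kinetic energy
  have hkin : ∑ l, ∑ i, ∫ y, pd i (fk d X Z l) y ^ 2 ≤ ∑ l, 1 / 2 * (1 / sc d Z l) := by
    refine Finset.sum_le_sum fun l _ => ?_
    have e1 : ∑ i, ∫ y, pd i (fk d X Z l) y ^ 2 =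
        ∑ i, ∫ y, pd i (orb (sc d Z l)) y ^ 2 := by
      refine Finset.sum_congr rfl fun i _ => ?_
      rw [← integral_sub_right_eq_self (fun y => pd i (orb (sc d Z l)) y ^ 2) (X (Jn Z l))]
      refine integral_congr_ae (Eventually.of_forall fun y => ?_)
      show pd i (fun w => orb (sc d Z l) (w - X (Jn Z l))) y ^ 2 = _
      rw [pd_tr]
    rw [e1]
    refine ((ho _ (sc_pos d hd Z l)).2.2.2.2.2).trans ?_
    have pl := sc_pos d hd Z l
    have h6 := sc_ge d hd Z N l (hmN l)
    have h7 : d / 2 / 4 ^ N = 2 * C0 := by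
      rw [hdd]; field_simp; norm_num
    rw [h7] at h6
    rw [div_le_iff₀ (by positivity)]
    calc C0 ≤ 1 / 2 * sc d Z l := by linarith
      _ = 1 / 2 * (1 / sc d Z l) * sc d Z l ^ 2 := by field_simp
  -- the interaction of the atoms
  set T : Fin M → Fin M → ℝ := fun i j => if i = j then 0 else 1 / nr (X i - X j) with hT
  have hTs : ∀ i j, T i j = T j i := by
    intro i j
    simp only [hT]
    by_cases h : i = j
    · rw [if_pos h, if_pos h.symm]
    · rw [if_neg h, if_neg (Ne.symm h), nr_comm]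
  -- nuclei
  have hnuc : 2 * nucR X (fun j => (Z j : ℝ)) = ∑ i, ∑ j, (Z i : ℝ) * (Z j * T i j) := by
    unfold nucR
    rw [← half_sum (fun i j => (Z i : ℝ) * (Z j * T i j))
      (fun i j => by rw [hTs i j]; ring) (fun i => by simp [hT])]
    congr 1
    refine Finset.sum_congr rfl fun i _ => Finset.sum_congr rfl fun j _ => ?_
    by_cases h : i < j
    · rw [if_pos h, if_pos h]
      simp only [hT]
      rw [if_neg h.ne]
      ring
    · rw [if_neg h, if_neg h]
  -- attraction
  have hone : 2 * nucR X (fun j => (Z j : ℝ)) + ∑ l, (Z (Jn Z l) : ℝ) * q l ≤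
      ∑ l, ∑ j, (Z j : ℝ) * ∫ y, fk d X Z l y ^ 2 / nr (y - X j) := by
    have e1 : 2 * nucR X (fun j => (Z j : ℝ)) = ∑ l, ∑ j, (Z j : ℝ) * T (Jn Z l) j := by
      rw [hnuc, sum_J Z (fun i => ∑ j, (Z j : ℝ) * T i j)]
      refine Finset.sum_congr rfl fun i _ => ?_
      rw [Finset.mul_sum]
    have e3 : ∀ l, (Z (Jn Z l) : ℝ) * q l =
        ∑ j, (Z j : ℝ) * (if Jn Z l = j then q l else 0) := by
      intro l
      simp
    rw [e1, Finset.sum_congr rfl fun l _ => e3 l, ← Finset.sum_add_distrib]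
    refine Finset.sum_le_sum fun l _ => ?_
    rw [← Finset.sum_add_distrib]
    refine Finset.sum_le_sum fun j _ => ?_
    rw [← mul_add]
    refine mul_le_mul_of_nonneg_left (le_of_eq ?_) (Nat.cast_nonneg _)
    have e2 : ∫ y, fk d X Z l y ^ 2 / nr (y - X j) =
        (∫ y, et (sc d Z l) (y - X (Jn Z l)) / nr (y - X j)) / kap := by
      rw [← integral_div]
      refine integral_congr_ae (Eventually.of_forall fun y => ?_)
      simp only [hf]
      rw [div_right_comm]
    rw [e2]
    simp only [hT]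
    by_cases h : Jn Z l = j
    · rw [if_pos h, if_pos h, zero_add]
      simp only [hq]
      rw [h]
    · rw [if_neg h, if_neg h, add_zero]
      have h5 := hX _ _ h
      have h6 := h3 (sc d Z l) (X j) (X (Jn Z l)) (sc_pos d hd Z l) (by
        rw [nr_comm]
        have := sc_le d hd Z l
        linarith)
      rw [h6, nr_comm (X j), div_right_comm, div_self hkap]
  -- repulsion
  set U : Fin (∑ j, Z j) → Fin (∑ j, Z j) → ℝ := fun k l =>
    if Jn Z k = Jn Z l ∧ mn Z k < mn Z l then q k else 0 with hU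
  have hU0 : ∀ k l, 0 ≤ U k l := by
    intro k l
    simp only [hU]
    split_ifs
    · exact hq0 k
    · exact le_rfl
  have hpair : (∑ k, ∑ l, if k < l then ∫ x, ∫ y, fk d X Z k x ^ 2 * fk d X Z l y ^ 2 /
      nr (x - y) else 0) ≤ nucR X (fun j => (Z j : ℝ)) + ∑ k, ∑ l, U k l := by
    have e0 : ∀ k l, (∫ x, ∫ y, fk d X Z k x ^ 2 * fk d X Z l y ^ 2 / nr (x - y)) =
        (∫ x, ∫ y, et (sc d Z k) (x - X (Jn Z k)) * et (sc d Z l) (y - X (Jn Z l)) /
          nr (x - y)) / kap ^ 2 := by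
      intro k l
      rw [← integral_div]
      refine integral_congr_ae (Eventually.of_forall fun x => ?_)
      simp only
      rw [← integral_div]
      refine integral_congr_ae (Eventually.of_forall fun y => ?_)
      simp only [hf]
      rw [div_mul_div_comm, div_right_comm, sq kap]
    have e1 : ∀ k l, k < l → (∫ x, ∫ y, fk d X Z k x ^ 2 * fk d X Z l y ^ 2 / nr (x - y)) ≤
        T (Jn Z k) (Jn Z l) + (U k l + U l k) := by
      intro k l hkl
      have hk2 : 0 < kap ^ 2 := by positivity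
      have pk := sc_pos d hd Z k
      have pl := sc_pos d hd Z l
      have lk := sc_le d hd Z k
      have ll := sc_le d hd Z l
      rw [e0]
      by_cases h : Jn Z k = Jn Z l
      · have hm : mn Z k ≠ mn Z l := fun hm => hkl.ne (Jm_inj Z k l h hm)
        simp only [hT, hU, hq]
        rw [if_pos h, zero_add]
        rcases lt_or_gt_of_ne hm with hm | hm
        · rw [if_pos ⟨h, hm⟩, if_neg (fun hh => absurd hh.2 (not_lt.2 hm.le)), add_zero, h,
            ((h5 _ _ (X (Jn Z l)) pk pl).2 (sc_lt d hd Z k l hm)).1, sq kap, mul_div_mul_left _ _ hkap]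
        · rw [if_neg (fun hh => absurd hh.2 (not_lt.2 hm.le)), if_pos ⟨h.symm, hm⟩, zero_add, h,
            ((h5 _ _ (X (Jn Z l)) pl pk).2 (sc_lt d hd Z l k hm)).2, sq kap, mul_div_mul_left _ _ hkap]
      · have h5 := hX _ _ h
        rw [(h4 _ _ (X (Jn Z k)) (X (Jn Z l)) pk pl).1 (by linarith), div_right_comm,
          div_self hk2.ne']
        simp only [hT]
        rw [if_neg h]
        linarith [hU0 k l, hU0 l k]
    have e2 : (∑ k, ∑ l, if k < l then ∫ x, ∫ y, fk d X Z k x ^ 2 * fk d X Z l y ^ 2 /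
        nr (x - y) else 0) ≤ (∑ k, ∑ l, if k < l then T (Jn Z k) (Jn Z l) else 0) +
        ∑ k, ∑ l, if k < l then U k l + U l k else 0 := by
      rw [← Finset.sum_add_distrib]
      refine Finset.sum_le_sum fun k _ => ?_
      rw [← Finset.sum_add_distrib]
      refine Finset.sum_le_sum fun l _ => ?_
      by_cases h : k < l
      · rw [if_pos h, if_pos h, if_pos h]
        exact e1 k l h
      · rw [if_neg h, if_neg h, if_neg h, zero_add]
    have e3 : (∑ k, ∑ l, if k < l then T (Jn Z k) (Jn Z l) else 0) =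
        nucR X (fun j => (Z j : ℝ)) := by
      have e4 := half_sum (fun k l => T (Jn Z k) (Jn Z l)) (fun k l => hTs _ _)
        (fun k => by simp [hT])
      have e5 : ∑ k, ∑ l, T (Jn Z k) (Jn Z l) = ∑ i, ∑ j, (Z i : ℝ) * (Z j * T i j) := by
        have : ∀ k, ∑ l, T (Jn Z k) (Jn Z l) = ∑ j, (Z j : ℝ) * T (Jn Z k) j := fun k =>
          sum_J Z (fun j => T (Jn Z k) j)
        rw [Finset.sum_congr rfl fun k _ => this k, sum_J Z (fun i => ∑ j, (Z j : ℝ) * T i j)]
        refine Finset.sum_congr rfl fun i _ => ?_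
        rw [Finset.mul_sum]
      rw [e5, ← hnuc] at e4
      linarith
    have e6 : (∑ k, ∑ l, if k < l then U k l + U l k else 0) = ∑ k, ∑ l, U k l := by
      have e7 := half_sum (fun k l => U k l + U l k) (fun k l => add_comm _ _)
        (fun k => by simp [hU])
      have e8 : ∑ k, ∑ l, (U k l + U l k) = 2 * ∑ k, ∑ l, U k l := by
        rw [two_mul]
        conv_rhs => rw [Finset.sum_comm]
        simp only [Finset.sum_add_distrib]
        rw [Finset.sum_comm, add_comm]
      rw [e8] at e7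
      linarith
    linarith
  -- the own pairs
  have hown : ∀ k, ∑ l, U k l + q k ≤ (Z (Jn Z k) : ℝ) * q k := by
    intro k
    have e1 : (Z (Jn Z k) : ℝ) * q k = ∑ l, if Jn Z k = Jn Z l then q k else 0 := by
      rw [sum_J Z (fun j => if Jn Z k = j then q k else 0)]
      simp
    have e2 : q k = ∑ l, if l = k then q k else 0 := by simp
    rw [e1]
    conv_lhs => rw [e2]
    rw [← Finset.sum_add_distrib]
    refine Finset.sum_le_sum fun l _ => ?_
    have h0 := hq0 k
    simp only [hU]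
    by_cases hl : l = k
    · subst hl
      simp
    · rw [if_neg hl, add_zero]
      by_cases hJ : Jn Z k = Jn Z l
      · rw [if_pos hJ]
        split_ifs
        · exact le_rfl
        · exact h0
      · rw [if_neg (fun hh => hJ hh.1), if_neg hJ]
  have hown2 : (∑ k, ∑ l, U k l) + ∑ k, q k ≤ ∑ k, (Z (Jn Z k) : ℝ) * q k := by
    rw [← Finset.sum_add_distrib]
    exact Finset.sum_le_sum fun k _ => hown k
  have hlast : (∑ l, 1 / 2 * (1 / sc d Z l)) + 1 / d * ((∑ j, Z j : ℕ) : ℝ) ≤ ∑ k, q k := by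
    have e1 : 1 / d * ((∑ j, Z j : ℕ) : ℝ) = ∑ _l : Fin (∑ j, Z j), 1 / d := by
      simp [mul_comm]
    rw [e1, ← Finset.sum_add_distrib]
    refine Finset.sum_le_sum fun k _ => ?_
    refine le_trans ?_ (hq1 k)
    have pk := sc_pos d hd Z k
    have h6 : 1 / (d / 2) ≤ 1 / sc d Z k := one_div_le_one_div_of_le pk (sc_le d hd Z k)
    have h7 : 1 / (d / 2) = 2 * (1 / d) := by field_simp
    linarith
  linarith [hE2, hkin, hone, hpair, hown2, hlast]

end Pool.Agent.Helper89.CF
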